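import Pool.Agent.Lib.MP_6bc78b_nt.LW.H95.OmHalf

/-! Project LW, module W4 (LINL). -/

set_option autoImplicit false

open Complex Filter Topology MeasureTheory ArithmeticFunction

namespace Pool.Agent.Lib.MP_6bc78b_nt.LW.H95

open Pool.Agent.Lib.MP_6bc78b_nt
open Pool.Agent.Lib.MP_6bc78b_nt.MS Pool.Agent.Lib.MP_6bc78b_nt.MS.P1
open Pool.Agent.Lib.MP_6bc78b_nt.MS.P5 Pool.Agent.Lib.MP_6bc78b_nt.MS.P5.HM
open Pool.Agent.Lib.MP_6bc78b_nt.LW

/-- LINL -/
theorem linL (hG : GauLStatement) (hz : ZfacStatement) (hZ : ZsfLStatement) (hTl : TailLStatement)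
    (hMov : MovLStatement) (hE : EdgLStatement) (hE0 : Edg0LStatement) (hMv : MvLStatement)
    (hcho : OmAsympStatement) (hchi : ChiStatement) (hLS : LSerStatement)
    (hPr : PrimeSumStatement) : LinLStatement := by
  classical
  intro a0 lam ha0 ha1 hlam0 hlam1
  obtain ⟨c, hc1, hc2⟩ : ∃ c : ℝ, 1 < c ∧ c < 3 / 2 := ⟨5 / 4, by norm_num, by norm_num⟩
  set A : ℝ := 8 with hA
  obtain ⟨C, hC0, hC⟩ := hcho
  obtain ⟨T1, h1⟩ := hZ A c a0 hc1 hc2 ha0 ha1
  obtain ⟨T2, h2⟩ := hTl A c a0 (by linarith) (by linarith) ha0 ha1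
  obtain ⟨T3, h3⟩ := hTl A (1 / 2) a0 (by norm_num) (by norm_num) ha0 ha1
  obtain ⟨T4, h4⟩ := hMov A c a0 hc1 hc2 ha0 ha1
  obtain ⟨T5, h5⟩ := hE A c a0 hc1 hc2 ha0 ha1
  obtain ⟨T6, h6⟩ := hE0 A c a0 hc1 hc2 ha0 ha1
  obtain ⟨T7, h7⟩ := hMv A a0 ha0 ha1
  have e8 : ∀ᶠ T : ℝ in atTop, ∑ k ∈ Finset.Icc 1 ⌊T ^ lam⌋₊, bb lam T k * bb lam T k / k ≤ 1 := by
    have := (hPr.2 lam hlam0 hlam1).eventually (ge_mem_nhds (show (1 / 12 : ℝ) < 1 by norm_num))
    exact this
  have e9 := gauss_event a0 3 ha0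
  have e10 : ∀ᶠ T : ℝ in atTop, 400 ≤ T ^ a0 :=
    (tendsto_rpow_atTop ha0).eventually (eventually_ge_atTop 400)
  have e11 : ∀ᶠ T : ℝ in atTop, 20 * C ≤ T ∧ 20 ≤ T ∧ AN c La ≤ T :=
    ((eventually_ge_atTop _).and ((eventually_ge_atTop _).and (eventually_ge_atTop _)))
  obtain ⟨T8, h8⟩ := Filter.eventually_atTop.1 (e8.and (e9.and (e10.and e11)))
  refine ⟨max T1 (max T2 (max T3 (max T4 (max T5 (max T6 (max T7 T8)))))),
    fun T t H hT hR => ?_⟩
  simp only [max_le_iff] at hT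
  obtain ⟨hT1, hT2, hT3, hT4, hT5, hT6, hT7, hT8⟩ := hT
  obtain ⟨p8, p9, p10, p11, p12, p13⟩ := h8 T hT8
  obtain ⟨r1, r2, r3, r4⟩ := hR
  have hR : Rng a0 T t H := ⟨r1, r2, r3, r4⟩
  have hT0 : 0 < T := by linarith
  have hT1' : 1 < T := by linarith
  have ht10 : 10 ≤ t := by linarith
  have ht0 : 0 < t := by linarith
  have hH400 : 400 ≤ H := p10.trans r3
  have hH0 : 0 < H := by linarith
  have hlog : 0 < Real.log T := Real.log_pos hT1'
  have hcL := cL_pos H hH0
  have hcL4 := cL_ge H hH0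
  have hcLH := cL_le H hH0
  have hTinv : 1 / T ≤ 1 := by rw [div_le_one hT0]; linarith
  have hTinv0 : 0 < 1 / T := by positivity
  have hpow : ∀ a b : ℝ, a ≤ b → T ^ a ≤ T ^ b :=
    fun a b h => Real.rpow_le_rpow_of_exponent_le hT1'.le h
  set X := ⌊T ^ lam⌋₊ with hX
  set d := bb lam T with hd
  have hXT : (X : ℝ) ≤ T := ZBB.floor_le lam T hlam1 hT1'
  have hdr : ∀ n, 0 ≤ d n ∧ d n ≤ 1 := fun n =>
    ⟨HM.bb_nonneg lam T (by positivity) hT1' n, HM.bb_le_one lam T hlam0 hT1' n⟩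
  have hdT : ∀ n, 0 ≤ d n ∧ d n ≤ T := fun n => ⟨(hdr n).1, (hdr n).2.trans hT1'.le⟩
  have hd0 : ∀ n, X < n → d n = 0 := fun n hn => HM.bb_supp' lam T n hn
  have hd1 : d 1 = 0 := by
    rw [hd, H59.bb_apply]
    unfold bbf
    rw [Nat.cast_one]
    simp
  have hTA1 : 1 ≤ T ^ A := Real.one_le_rpow hT1'.le (by rw [hA]; norm_num)
  have hTA0 : 0 ≤ T ^ A := by positivity
  obtain ⟨hALa, -, -⟩ := hLS.2.2.2.1 c hc1
  have hAd : ASum c d := H59.ASum_fin d X hd0 c
  obtain ⟨hA1, hA2', hA3⟩ := hLS.2.2.2.2.1 c La d hALa hAd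
  have hANd := AN_d_le c T d X hc1 hT1'.le hXT hdT hd0
  have hANd0 : 0 ≤ AN c d := tsum_nonneg (fun n => by positivity)
  have hA2 : AN c (La * d) ≤ T ^ A := by
    refine hA2'.trans ?_
    calc AN c La * AN c d ≤ T * (T * T) := by gcongr
      _ = T ^ (3 : ℝ) := by
          rw [show (3 : ℝ) = ((3 : ℕ) : ℝ) by norm_num, Real.rpow_natCast]
          ring
      _ ≤ T ^ A := hpow _ _ (by rw [hA]; norm_num)
  have hAL2 : AN c La ≤ T ^ A := p13.trans (by
    have := hpow 1 A (by rw [hA]; norm_num)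
    rwa [Real.rpow_one] at this)
  set B : ℂ → ℂ := PD d X with hB
  have hBd : Differentiable ℂ B := PD_diff d X
  have hB1d : Differentiable ℂ (fun s => B (1 - s)) :=
    hBd.comp ((differentiable_const _).sub differentiable_id)
  have hBb : ∀ s : ℂ, -1 ≤ s.re → ‖B s‖ ≤ T ^ (3 : ℝ) := fun s hs =>
    PD_norm d X T hT1'.le hXT hdT s hs
  have hT3A : T ^ (3 : ℝ) ≤ T ^ A := hpow _ _ (by rw [hA]; norm_num)
  have hB1b : ∀ s : ℂ, s.re ≤ 2 → ‖B (1 - s)‖ ≤ T ^ (3 : ℝ) := fun s hs =>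
    hBb _ (by rw [Complex.sub_re, Complex.one_re]; linarith)
  have hconj : ∀ s : ℂ, (starRingEnd ℂ) (B (1 - (starRingEnd ℂ) s)) = B (1 - s) := by
    intro s
    rw [hB, ← PD_conj, map_sub, map_one, Complex.conj_conj]
  have hline : Continuous (fun y : ℝ => (c + y * I : ℂ)) := by fun_prop
  have hlinh : Continuous (fun y : ℝ => (((1 / 2 : ℝ) : ℂ) + y * I : ℂ)) := by fun_prop
  have hre : ∀ y : ℝ, (c + y * I : ℂ).re = c := by intro y; simp
  have hreh : ∀ y : ℝ, (((1 / 2 : ℝ) : ℂ) + y * I : ℂ).re = 1 / 2 := by intro y; simp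
  have hWc : Continuous (WL t H) := by unfold WL; fun_prop
  have hzeta : ∀ y : ℝ, ‖logDeriv riemannZeta (c + y * I)‖ ≤ T := by
    intro y
    have e1 := ZBB.norm_LS_le La c hALa (c + y * I) (hre y)
    rw [hLS.1 _ (by rw [hre]; exact hc1), norm_neg] at e1
    exact e1.trans p13
  have h1y : ∀ y : ℝ, (1 : ℝ) ≤ (1 + |y|) ^ A := by
    intro y
    exact Real.one_le_rpow (by linarith [abs_nonneg y]) (by rw [hA]; norm_num)
  have hTT4 : T * T ^ (3 : ℝ) ≤ T ^ A := by
    calc T * T ^ (3 : ℝ) = T ^ (1 + 3 : ℝ) := by rw [Real.rpow_add hT0, Real.rpow_one]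
      _ ≤ T ^ A := hpow _ _ (by rw [hA]; norm_num)
  -- the zero sum formula
  have hz1 := h1 T t H hT1 hR B hBd.differentiableOn (fun s hs =>
    (hBb s (by linarith [hs.1.1])).trans hT3A)
  simp_rw [hconj] at hz1
  -- the first integral
  obtain ⟨i1, t1⟩ := h2 T t H hT2 hR (fun s => logDeriv riemannZeta s * B s)
    (by exact ((ZBB.meas_zeta c hc1).mul
      (hBd.continuous.comp hline).measurable).aestronglyMeasurable)
    (fun y => by
      rw [norm_mul]
      have e1 : ‖logDeriv riemannZeta (c + y * I)‖ * ‖B (c + y * I)‖ ≤ T ^ A := by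
        calc _ ≤ T * T ^ (3 : ℝ) := by
              gcongr
              · exact hzeta y
              · exact hBb _ (by rw [hre]; linarith)
          _ ≤ _ := hTT4
      exact e1.trans (le_mul_of_one_le_right hTA0 (h1y y)))
  have hA11 : (La * d) 1 = 0 := by
    rw [ArithmeticFunction.mul_apply, Nat.divisorsAntidiagonal_one, Finset.sum_singleton, hd1,
      mul_zero]
  have q1 := h6 T t H hT6 hR (La * d) hA11 hA1 hA2
  have q2 : VI c (fun s => LS (La * d) s * WL t H s) =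
      -VI c (fun s => logDeriv riemannZeta s * B s * WL t H s) := by
    rw [← ZBB.VI_neg]
    apply ZBB.VI_congr
    intro y
    have e1 := hA3 (c + y * I) (hre y)
    rw [hLS.1 _ (by rw [hre]; exact hc1), H59.LS_fin d X hd0] at e1
    rw [e1]
    show -_ * B (c + y * I) * _ = _
    ring
  rw [q2, norm_neg] at q1
  set V1 := VF c t (fun s => logDeriv riemannZeta s * B s * WL t H s) with hV1
  have hV1n : ‖V1‖ ≤ 2 := by
    have e1 := norm_sub_norm_le V1 (VI c (fun s => logDeriv riemannZeta s * B s * WL t H s))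
    rw [norm_sub_rev] at e1
    linarith
  -- the second integral, zeta part
  obtain ⟨i2, t2⟩ := h2 T t H hT2 hR (fun s => logDeriv riemannZeta s * B (1 - s))
    (by exact ((ZBB.meas_zeta c hc1).mul
      (hB1d.continuous.comp hline).measurable).aestronglyMeasurable)
    (fun y => by
      rw [norm_mul]
      have e1 : ‖logDeriv riemannZeta (c + y * I)‖ * ‖B (1 - (c + y * I))‖ ≤ T ^ A := by
        calc _ ≤ T * T ^ (3 : ℝ) := by
              gcongr
              · exact hzeta y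
              · exact hB1b _ (by rw [hre]; linarith)
          _ ≤ _ := hTT4
      exact e1.trans (le_mul_of_one_le_right hTA0 (h1y y)))
  have q3 := h5 T t H hT5 hR X La d hXT hALa hAL2 (fun k => by
    rw [abs_of_nonneg (hdr k).1]
    exact (hdr k).2.trans hTA1) hd0
  have q4 : VI c (fun s => LS La s * (∑ k ∈ Finset.Icc 1 X, ((d k : ℝ) : ℂ) *
      (k : ℂ) ^ (-(1 - s))) * WL t H s) =
      -VI c (fun s => logDeriv riemannZeta s * B (1 - s) * WL t H s) := by
    rw [← ZBB.VI_neg]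
    apply ZBB.VI_congr
    intro y
    rw [hLS.1 _ (by rw [hre]; exact hc1)]
    show -_ * B (1 - (c + y * I)) * _ = _
    ring
  rw [q4] at q3
  set V2 := VF c t (fun s => logDeriv riemannZeta s * B (1 - s) * WL t H s) with hV2
  set P := ∑ k ∈ Finset.Icc 1 X, La k * d k / k with hP
  set N1 := NB (2 * X) T H La d t with hN1
  set N2 := NB (2 * X) T H d d t with hN2
  have hV2re : -V2.re ≤ cL H * (P + ‖N1‖) + 2 := by
    set W := VI c (fun s => logDeriv riemannZeta s * B (1 - s) * WL t H s) with hW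
    have e1 := (Complex.abs_re_le_norm (W - V2)).trans t2
    rw [Complex.sub_re] at e1
    have e2 := (Complex.abs_re_le_norm _).trans q3
    rw [Complex.sub_re, Complex.neg_re, Complex.re_ofReal_mul, Complex.add_re,
      Complex.ofReal_re] at e2
    have e3 := le_abs_self (W.re - V2.re)
    have e4 := le_abs_self (-W.re - cL H * (P + N1.re))
    have e5 : N1.re ≤ ‖N1‖ := (le_abs_self _).trans (Complex.abs_re_le_norm _)
    have e6 : cL H * (P + N1.re) ≤ cL H * (P + ‖N1‖) := by gcongr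
    linarith
  -- the second integral, omega part
  set V3 := VF c t (fun s => om s * B (1 - s) * WL t H s) with hV3
  have hmv := h4 T t H hT4 hR (fun s => B (1 - s)) hB1d.differentiableOn (fun s hs =>
    (hB1b s (by linarith [hs.1.2])).trans hT3A)
  have hsplit : VF c t (fun s => (om s + logDeriv riemannZeta s) * B (1 - s) * WL t H s) =
      V3 + V2 := by
    rw [hV3, hV2]
    unfold VF
    rw [← mul_add, ← intervalIntegral.integral_add]
    · congr 1
      apply intervalIntegral.integral_congr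
      intro y _
      simp only
      ring
    · apply ContinuousOn.intervalIntegrable
      intro y hy
      rw [Set.uIcc_of_le (by linarith)] at hy
      have e1 : DifferentiableAt ℂ om (c + y * I) :=
        H51.om_diff hchi _ (by rw [hre]; linarith) (by
          simp only [Complex.add_im, Complex.ofReal_im, Complex.mul_im, Complex.ofReal_re,
            Complex.I_im, Complex.I_re, mul_one, mul_zero, add_zero, zero_add]
          have := hy.1
          intro h
          linarith)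
      have e2 : ContinuousAt (fun y : ℝ => om (c + y * I)) y :=
        ContinuousAt.comp (f := fun y : ℝ => (c + y * I : ℂ)) (g := om)
          e1.continuousAt hline.continuousAt
      exact ((e2.mul (hB1d.continuous.comp hline).continuousAt).mul
        (hWc.comp hline).continuousAt).continuousWithinAt
    · exact i2.intervalIntegrable
  rw [hsplit] at hz1
  -- on the critical line
  obtain ⟨i3, t3⟩ := h3 T t H hT3 hR (fun s => B (1 - s))
    (hB1d.continuous.comp hlinh).aestronglyMeasurable (fun y => by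
      have e1 : ‖B (1 - (((1 / 2 : ℝ) : ℂ) + y * I))‖ ≤ T ^ A :=
        (hB1b _ (by rw [hreh]; norm_num)).trans hT3A
      exact e1.trans (le_mul_of_one_le_right hTA0 (h1y y)))
  obtain ⟨i4, -⟩ := h3 T t H hT3 hR (fun s => B s * B (1 - s))
    ((hBd.mul hB1d).continuous.comp hlinh).aestronglyMeasurable (fun y => by
      have e1 : ‖B (((1 / 2 : ℝ) : ℂ) + y * I) * B (1 - (((1 / 2 : ℝ) : ℂ) + y * I))‖ ≤ T ^ A := by
        rw [norm_mul]
        calc _ ≤ T ^ (3 : ℝ) * T ^ (3 : ℝ) := by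
              gcongr
              · exact hBb _ (by rw [hreh]; norm_num)
              · exact hB1b _ (by rw [hreh]; norm_num)
          _ = T ^ (3 + 3 : ℝ) := by rw [Real.rpow_add hT0]
          _ ≤ T ^ A := hpow _ _ (by rw [hA]; norm_num)
      exact e1.trans (le_mul_of_one_le_right hTA0 (h1y y)))
  have hint2 : Integrable (fun y : ℝ => ‖PD d X (1 / 2 + y * I)‖ ^ 2 * wl t H y) := by
    refine i4.re.congr (Filter.Eventually.of_forall (fun y => ?_))
    show (B (((1 / 2 : ℝ) : ℂ) + y * I) * B (1 - (((1 / 2 : ℝ) : ℂ) + y * I)) *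
      WL t H (((1 / 2 : ℝ) : ℂ) + y * I)).re = _
    rw [half_cast, hB, PD_half_conj, Complex.mul_conj, Complex.normSq_eq_norm_sq, hG.2.2.1,
      ← Complex.ofReal_mul, Complex.ofReal_re]
  have q5 := gauss_small hG d X t H hH0 hd1 hdr
  have q6 : (X : ℝ) * (cL H * Real.exp (-(H ^ 2 * (Real.log 2) ^ 2 / 4))) ≤ 1 / T := by
    have e1 : Real.exp (-(H ^ 2 * (Real.log 2) ^ 2 / 4)) ≤
        Real.exp (-((T ^ a0) ^ 2 * (Real.log 2) ^ 2 / 4)) := by
      apply Real.exp_le_exp.2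
      apply neg_le_neg
      gcongr
    have e2 : cL H ≤ T := hcLH.trans (r4.trans (by
      have := hpow (1 - a0) 1 (by linarith)
      rwa [Real.rpow_one] at this))
    rw [le_div_iff₀ hT0]
    calc (X : ℝ) * (cL H * Real.exp (-(H ^ 2 * (Real.log 2) ^ 2 / 4))) * T
        ≤ T * (T * Real.exp (-((T ^ a0) ^ 2 * (Real.log 2) ^ 2 / 4))) * T := by gcongr
      _ = T ^ (3 : ℝ) * Real.exp (-((T ^ a0) ^ 2 * (Real.log 2) ^ 2 / 4)) := by
          rw [show (3 : ℝ) = ((3 : ℕ) : ℝ) by norm_num, Real.rpow_natCast]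
          ring
      _ ≤ 1 := p9
  have q7 : ‖VF (1 / 2) t (fun s => PD d X (1 - s) * WL t H s)‖ ≤ 2 / T := by
    have e1 := norm_sub_norm_le (VF (1 / 2) t (fun s => B (1 - s) * WL t H s))
      (VI (1 / 2) (fun s => B (1 - s) * WL t H s))
    rw [norm_sub_rev] at e1
    have e2 : 2 / T = 1 / T + 1 / T := by ring
    have e3 : ‖VI (1 / 2) (fun s => B (1 - s) * WL t H s)‖ ≤ 1 / T := q5.trans q6
    rw [e2]
    show ‖VF (1 / 2) t (fun s => B (1 - s) * WL t H s)‖ ≤ _
    linarith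
  have q8 := h7 T t H hT7 hR X d hXT (fun k => by
    rw [abs_of_nonneg (hdr k).1]
    exact (hdr k).2.trans hTA1) hd0
  have q9 := om_half hG hchi C hC0 hC d X t H _ _ hH0 (by linarith) hint2 q8 q7
  have hS : ∑ n ∈ Finset.Icc 1 X, d n ^ 2 / (n : ℝ) ≤ 1 := by
    refine le_trans (le_of_eq ?_) p8
    refine Finset.sum_congr rfl fun k _ => ?_
    rw [sq]
  have hlogt : |Real.log (t / (2 * Real.pi))| * (2 / T) ≤ 8 := by
    have e1 : |Real.log (t / (2 * Real.pi))| ≤ 4 * T := by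
      have hpi := Real.pi_gt_three
      have hpi4 := Real.pi_le_four
      have e2 : 0 < t / (2 * Real.pi) := by positivity
      have e3 : 1 ≤ t / (2 * Real.pi) := by
        rw [le_div_iff₀ (by positivity)]
        linarith
      rw [abs_of_nonneg (Real.log_nonneg e3)]
      have e4 := Real.log_le_sub_one_of_pos e2
      have e5 : t / (2 * Real.pi) ≤ t := by
        apply div_le_self ht0.le
        linarith
      linarith
    calc |Real.log (t / (2 * Real.pi))| * (2 / T) ≤ 4 * T * (2 / T) := by gcongr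
      _ = 8 := by field_simp; norm_num
  have hEE : (8 * H ^ 2 + 8 * C ^ 2) / t ^ 2 ≤ 1 / 4 := by
    have e1 : H ≤ T / 400 := by
      rw [le_div_iff₀ (by norm_num)]
      calc H * 400 ≤ T ^ (1 - a0) * T ^ a0 := by gcongr
        _ = T := by
            rw [← Real.rpow_add hT0]
            simp
    have e2 : C ≤ T / 20 := by linarith
    rw [div_le_iff₀ (by positivity)]
    have e3 : H ^ 2 ≤ (T / 400) ^ 2 := by gcongr
    have e4 : C ^ 2 ≤ (T / 20) ^ 2 := by gcongr
    have e5 : (T / 2) ^ 2 ≤ t ^ 2 := by gcongr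
    nlinarith
  have hN20 : 0 ≤ ‖N2‖ := norm_nonneg _
  have hom : ‖VF (1 / 2) t (fun s => om s * B (1 - s) * WL t H s)‖ ≤
      9 + cL H * (3 / 4 + ‖N2‖) := by
    refine q9.trans ?_
    have e1 : cL H * ((8 * H ^ 2 + 8 * C ^ 2) / t ^ 2) ≤ cL H * (1 / 4) := by gcongr
    have e2 : cL H * (∑ n ∈ Finset.Icc 1 X, d n ^ 2 / (n : ℝ) + ‖N2‖) ≤
        cL H * (1 + ‖N2‖) := by gcongr
    have e3 : 0 ≤ cL H * ‖N2‖ := by positivity
    have e4 : (cL H * (∑ n ∈ Finset.Icc 1 X, d n ^ 2 / (n : ℝ) + ‖N2‖) + 1 / T) / 2 ≤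
        cL H * (1 / 2 + ‖N2‖) + 1 := by
      linarith
    linarith
  have hV3n : ‖V3‖ ≤ 10 + cL H * (3 / 4 + ‖N2‖) := by
    have e1 := norm_sub_norm_le V3 (VF (1 / 2) t (fun s => om s * B (1 - s) * WL t H s))
    linarith
  -- conclusion
  have hfin : ∑ᶠ γ ∈ zset t, (mz γ : ℝ) * wl t H γ * (-(BB lam T (1 / 2 + γ * I)).re) =
      -(ZL t H B).re := by
    rw [zl_re hG hz, ← finsum_mem_neg_distrib _ (hz.2.2.2.2.2.2 t)]
    apply finsum_mem_congr rfl
    intro γ _
    rw [BB_eq]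
    ring
  rw [hfin]
  have e1 := (Complex.abs_re_le_norm _).trans hz1
  rw [Complex.sub_re, Complex.add_re, Complex.conj_re, Complex.add_re] at e1
  have e2 := neg_le_abs ((ZL t H B).re - (V1.re + (V3.re + V2.re)))
  have e3 : -V1.re ≤ 2 := (neg_le_abs _).trans ((Complex.abs_re_le_norm _).trans hV1n)
  have e4 : -V3.re ≤ 10 + cL H * (3 / 4 + ‖N2‖) :=
    (neg_le_abs _).trans ((Complex.abs_re_le_norm _).trans hV3n)
  have e5 : 15 ≤ cL H * (1 / 4) := by linarith
  have e6 : cL H * (1 + ‖N2‖) = cL H * (3 / 4 + ‖N2‖) + cL H * (1 / 4) := by ring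
  linarith

end Pool.Agent.Lib.MP_6bc78b_nt.LW.H95
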