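import Pool.Agent.Lib.MP_6bc78b_nt.LW.Iface

/-! Project LW, module W4 (LINL), auxiliary facts. -/

set_option autoImplicit false

open Complex Filter Topology MeasureTheory ArithmeticFunction

namespace Pool.Agent.Lib.MP_6bc78b_nt.LW.H95

open Pool.Agent.Lib.MP_6bc78b_nt
open Pool.Agent.Lib.MP_6bc78b_nt.MS Pool.Agent.Lib.MP_6bc78b_nt.MS.P1
open Pool.Agent.Lib.MP_6bc78b_nt.MS.P5 Pool.Agent.Lib.MP_6bc78b_nt.MS.P5.HM
open Pool.Agent.Lib.MP_6bc78b_nt.LW

lemma half_cast : (((1 / 2 : ℝ)) : ℂ) = 1 / 2 := H23.half_cast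

/-- Real part of the weighted sum. -/
lemma zl_re (hG : GauLStatement) (hz : ZfacStatement) (t H : ℝ) (F : ℂ → ℂ) :
    (ZL t H F).re = ∑ᶠ γ ∈ zset t, (mz γ : ℝ) * wl t H γ * (F (1 / 2 + γ * I)).re := by
  have hf : (zset t).Finite := hz.2.2.2.2.2.2 t
  unfold ZL
  rw [finsum_mem_eq_finite_toFinset_sum _ hf, finsum_mem_eq_finite_toFinset_sum _ hf,
    Complex.re_sum]
  refine Finset.sum_congr rfl fun γ _ => ?_
  rw [hG.2.2.1]
  have : ((mz γ : ℂ) * (wl t H γ : ℂ)) = ((((mz γ : ℝ) * wl t H γ : ℝ)) : ℂ) := by push_cast; rfl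
  rw [this, Complex.re_ofReal_mul]

/-- `ω` on the critical line, compared with its value in the centre. -/
lemma om_dev (C : ℝ) (hC0 : 0 < C) (hC : ∀ s : ℂ, 0 < s.re → s.re ≤ 2 → 1 ≤ s.im →
      ‖om s - (Real.log (s.im / (2 * Real.pi)) : ℂ)‖ ≤ C / s.im) (t y : ℝ) (ht : 2 ≤ t)
      (h1 : t / 2 ≤ y) :
    ‖om (1 / 2 + y * I) - (Real.log (t / (2 * Real.pi)) : ℂ)‖ ≤ (2 * |y - t| + 2 * C) / t := by
  have ht0 : 0 < t := by linarith
  have hy0 : 0 < y := by linarith
  have hpi : 0 < 2 * Real.pi := by positivity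
  have him : (1 / 2 + y * I : ℂ).im = y := by simp
  have hre : (1 / 2 + y * I : ℂ).re = 1 / 2 := by simp
  have h3 := hC (1 / 2 + y * I) (by rw [hre]; norm_num) (by rw [hre]; norm_num)
    (by rw [him]; linarith)
  rw [him] at h3
  have h4 : C / y ≤ 2 * C / t := by
    rw [div_le_div_iff₀ hy0 ht0]
    nlinarith
  have h5 : |Real.log (y / (2 * Real.pi)) - Real.log (t / (2 * Real.pi))| ≤ 2 * |y - t| / t := by
    have e1 : Real.log (y / (2 * Real.pi)) - Real.log (t / (2 * Real.pi)) = Real.log (y / t) := by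
      rw [Real.log_div hy0.ne' hpi.ne', Real.log_div ht0.ne' hpi.ne', Real.log_div hy0.ne' ht0.ne']
      ring
    rw [e1, abs_le]
    constructor
    · have e2 : Real.log (t / y) ≤ t / y - 1 := Real.log_le_sub_one_of_pos (by positivity)
      have e3 : Real.log (t / y) = -Real.log (y / t) := by
        rw [Real.log_div ht0.ne' hy0.ne', Real.log_div hy0.ne' ht0.ne']
        ring
      have e4 : t / y - 1 ≤ 2 * |y - t| / t := by
        rw [div_sub_one hy0.ne', div_le_div_iff₀ hy0 ht0]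
        have e5 : t - y ≤ |y - t| := by rw [abs_sub_comm]; exact le_abs_self _
        have e6 := abs_nonneg (y - t)
        nlinarith
      linarith
    · have e2 : Real.log (y / t) ≤ y / t - 1 := Real.log_le_sub_one_of_pos (by positivity)
      have e4 : y / t - 1 ≤ 2 * |y - t| / t := by
        rw [div_sub_one ht0.ne', div_le_div_iff_of_pos_right ht0]
        have e5 : y - t ≤ |y - t| := le_abs_self _
        have e6 := abs_nonneg (y - t)
        linarith
      linarith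
  have h6 : om (1 / 2 + y * I) - (Real.log (t / (2 * Real.pi)) : ℂ) =
      (om (1 / 2 + y * I) - (Real.log (y / (2 * Real.pi)) : ℂ)) +
        ((Real.log (y / (2 * Real.pi)) - Real.log (t / (2 * Real.pi)) : ℝ) : ℂ) := by
    push_cast
    ring
  rw [h6]
  refine (norm_add_le _ _).trans ?_
  rw [Complex.norm_real, Real.norm_eq_abs]
  calc _ ≤ C / y + 2 * |y - t| / t := add_le_add h3 h5
    _ ≤ 2 * C / t + 2 * |y - t| / t := by linarith
    _ = _ := by ring

lemma wl_pos (t H y : ℝ) : 0 < wl t H y := Real.exp_pos _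

lemma wl_cont (t H : ℝ) : Continuous (wl t H) := by unfold wl; fun_prop

/-- The wide Gaussian, its integral. -/
lemma wide_int (t H : ℝ) (hH : 0 < H) :
    Integrable (fun y : ℝ => Real.exp (-(1 / (2 * H ^ 2)) * (y - t) ^ 2)) ∧
      ∫ y : ℝ, Real.exp (-(1 / (2 * H ^ 2)) * (y - t) ^ 2) = Real.sqrt (2 * Real.pi) * H := by
  have hb : 0 < 1 / (2 * H ^ 2) := by positivity
  constructor
  · exact (integrable_exp_neg_mul_sq hb).comp_sub_right t
  · rw [integral_sub_right_eq_self (fun y : ℝ => Real.exp (-(1 / (2 * H ^ 2)) * y ^ 2)) t,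
      integral_gaussian]
    have : Real.pi / (1 / (2 * H ^ 2)) = 2 * Real.pi * H ^ 2 := by field_simp
    rw [this, Real.sqrt_mul (by positivity), Real.sqrt_sq hH.le]

/-- `δ² wl ≤ wide Gaussian`. -/
lemma dev_sq_le (C t H y : ℝ) (hH : 0 < H) (ht : 0 < t) :
    ((2 * |y - t| + 2 * C) / t) ^ 2 * wl t H y ≤
      (8 * H ^ 2 + 8 * C ^ 2) / t ^ 2 * Real.exp (-(1 / (2 * H ^ 2)) * (y - t) ^ 2) := by
  have h1 : ((2 * |y - t| + 2 * C) / t) ^ 2 ≤ (8 * (y - t) ^ 2 + 8 * C ^ 2) / t ^ 2 := by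
    rw [div_pow]
    apply div_le_div_of_nonneg_right _ (by positivity)
    have h := sq_abs (y - t)
    nlinarith [sq_nonneg (|y - t| - C)]
  have h2 : wl t H y = Real.exp (-(1 / (2 * H ^ 2)) * (y - t) ^ 2) *
      Real.exp (-(1 / (2 * H ^ 2)) * (y - t) ^ 2) := by
    unfold wl
    rw [← Real.exp_add]
    congr 1
    field_simp
    ring
  set u := (1 / (2 * H ^ 2)) * (y - t) ^ 2 with hu
  have hu0 : 0 ≤ u := by positivity
  have h3 : Real.exp (-(1 / (2 * H ^ 2)) * (y - t) ^ 2) = Real.exp (-u) := by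
    congr 1; rw [hu]; ring
  rw [h3] at h2 ⊢
  have h4 : (8 * (y - t) ^ 2 + 8 * C ^ 2) * Real.exp (-u) ≤ 8 * H ^ 2 + 8 * C ^ 2 := by
    have e1 : (y - t) ^ 2 = 2 * H ^ 2 * u := by rw [hu]; field_simp
    have e2 : Real.exp (-u) ≤ 1 := Real.exp_le_one_iff.2 (by linarith)
    have e3 : 2 * u * Real.exp (-u) ≤ 1 := by
      have e4 : u + 1 ≤ Real.exp u := Real.add_one_le_exp u
      have e5 : 2 * u ≤ Real.exp u := by
        have := Real.quadratic_le_exp_of_nonneg hu0
        nlinarith [sq_nonneg (u - 1)]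
      rw [Real.exp_neg, ← div_eq_mul_inv, div_le_one (Real.exp_pos u)]
      exact e5
    have e6 : 0 ≤ 8 * C ^ 2 := by positivity
    have e7 : 0 ≤ 8 * H ^ 2 := by positivity
    rw [e1]
    calc (8 * (2 * H ^ 2 * u) + 8 * C ^ 2) * Real.exp (-u)
        = 8 * H ^ 2 * (2 * u * Real.exp (-u)) + 8 * C ^ 2 * Real.exp (-u) := by ring
      _ ≤ 8 * H ^ 2 * 1 + 8 * C ^ 2 * 1 := by gcongr
      _ = _ := by ring
  rw [h2]
  have h5 : 0 < Real.exp (-u) := Real.exp_pos _
  calc ((2 * |y - t| + 2 * C) / t) ^ 2 * (Real.exp (-u) * Real.exp (-u))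
      ≤ (8 * (y - t) ^ 2 + 8 * C ^ 2) / t ^ 2 * (Real.exp (-u) * Real.exp (-u)) := by gcongr
    _ = ((8 * (y - t) ^ 2 + 8 * C ^ 2) * Real.exp (-u)) / t ^ 2 * Real.exp (-u) := by ring
    _ ≤ (8 * H ^ 2 + 8 * C ^ 2) / t ^ 2 * Real.exp (-u) := by gcongr

lemma sqrt_two_pi : Real.sqrt (2 * Real.pi) ≤ 3 := by
  rw [show (3 : ℝ) = Real.sqrt (3 ^ 2) by rw [Real.sqrt_sq]; norm_num]
  apply Real.sqrt_le_sqrt
  have := Real.pi_lt_d2
  linarith

lemma cL_ge (H : ℝ) (hH : 0 < H) : H / 4 ≤ cL H := by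
  unfold cL
  apply div_le_div_of_nonneg_left hH.le (by positivity)
  have h : Real.sqrt Real.pi ≤ 2 := by
    rw [show (2 : ℝ) = Real.sqrt (2 ^ 2) by rw [Real.sqrt_sq]; norm_num]
    apply Real.sqrt_le_sqrt
    have := Real.pi_lt_d2
    linarith
  linarith

lemma cL_le (H : ℝ) (hH : 0 < H) : cL H ≤ H := by
  unfold cL
  apply div_le_self hH.le
  have h : 1 ≤ Real.sqrt Real.pi := by
    rw [show (1 : ℝ) = Real.sqrt 1 by rw [Real.sqrt_one]]
    apply Real.sqrt_le_sqrt
    have := Real.pi_gt_three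
    linarith
  linarith

lemma cL_pos (H : ℝ) (hH : 0 < H) : 0 < cL H := by
  have := cL_ge H hH
  linarith

/-- The integral without constant term on the critical line. -/
lemma gauss_small (hG : GauLStatement) (d : ArithmeticFunction ℝ) (X : ℕ) (t H : ℝ) (hH : 0 < H)
    (hd1 : d 1 = 0) (hd : ∀ n, 0 ≤ d n ∧ d n ≤ 1) :
    ‖VI (1 / 2) (fun s => PD d X (1 - s) * WL t H s)‖ ≤
      X * (cL H * Real.exp (-(H ^ 2 * (Real.log 2) ^ 2 / 4))) := by
  have hc := cL_pos H hH
  have e1 : VI (1 / 2) (fun s => PD d X (1 - s) * WL t H s) =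
      ∑ k ∈ Finset.Icc 1 X, VI (1 / 2) (fun s => ((d k / k : ℝ) : ℂ) *
        (WL t H s * ((1 / (k : ℝ) : ℝ) : ℂ) ^ (-s))) := by
    rw [← ZBB.VI_sum]
    · apply ZBB.VI_congr
      intro y
      unfold PD
      rw [Finset.sum_mul]
      refine Finset.sum_congr rfl fun k hk => ?_
      have hk1 := (Finset.mem_Icc.1 hk).1
      have h := ZBB.ratio_cpow 1 k le_rfl hk1 (((1 / 2 : ℝ) : ℂ) + y * I)
      rw [Nat.cast_one, Complex.one_cpow, one_mul, Nat.cast_one] at h
      rw [h]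
      push_cast
      ring
    · intro k hk
      have hk1 := (Finset.mem_Icc.1 hk).1
      have hk' : (0 : ℝ) < k := by exact_mod_cast hk1
      exact ((hG.2.2.2 t H (1 / 2) (1 / (k : ℝ)) hH (by positivity)).1).const_mul _
  rw [e1]
  refine (norm_sum_le _ _).trans ?_
  have e2 : ∀ k ∈ Finset.Icc 1 X, ‖VI (1 / 2) (fun s => ((d k / k : ℝ) : ℂ) *
        (WL t H s * ((1 / (k : ℝ) : ℝ) : ℂ) ^ (-s)))‖ ≤
      cL H * Real.exp (-(H ^ 2 * (Real.log 2) ^ 2 / 4)) := by
    intro k hk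
    have hk1 := (Finset.mem_Icc.1 hk).1
    have hk' : (0 : ℝ) < k := by exact_mod_cast hk1
    rw [ZBB.VI_const_mul, (hG.2.2.2 t H (1 / 2) (1 / (k : ℝ)) hH (by positivity)).2, norm_mul,
      norm_mul, Complex.norm_real, Complex.norm_real, Real.norm_eq_abs, Real.norm_eq_abs,
      abs_of_nonneg (div_nonneg (hd k).1 hk'.le), abs_of_pos hc, Complex.norm_exp]
    rcases Nat.lt_or_ge k 2 with h2 | h2
    · have : k = 1 := by omega
      subst this
      rw [hd1]
      simp only [zero_div, zero_mul]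
      positivity
    · have hlog : Real.log 2 ≤ Real.log k := Real.log_le_log (by norm_num) (by exact_mod_cast h2)
      have hlog2 : 0 < Real.log 2 := Real.log_pos (by norm_num)
      have e3 : (-(1 / 2 + (t : ℂ) * I) * (Real.log (1 / (k : ℝ)) : ℂ) -
          (H : ℂ) ^ 2 * (Real.log (1 / (k : ℝ)) : ℂ) ^ 2 / 4).re =
          Real.log k / 2 - H ^ 2 * Real.log k ^ 2 / 4 := by
        have e4 : (-(1 / 2 + (t : ℂ) * I) * (Real.log (1 / (k : ℝ)) : ℂ) -
          (H : ℂ) ^ 2 * (Real.log (1 / (k : ℝ)) : ℂ) ^ 2 / 4) =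
          ((Real.log k / 2 - H ^ 2 * Real.log k ^ 2 / 4 : ℝ) : ℂ) +
            ((t * Real.log k : ℝ) : ℂ) * I := by
          have e0 : Real.log (1 / (k : ℝ)) = -Real.log k := by rw [one_div, Real.log_inv]
          rw [e0]
          push_cast
          ring
        rw [e4, Complex.add_re, Complex.re_ofReal_mul, Complex.ofReal_re, Complex.I_re, mul_zero,
          add_zero]
      rw [e3, Real.exp_sub]
      have e5 : Real.exp (Real.log k / 2) ≤ k := by
        calc Real.exp (Real.log k / 2) ≤ Real.exp (Real.log k) := by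
              apply Real.exp_le_exp.2
              linarith
          _ = k := Real.exp_log hk'
      have e6 : Real.exp (H ^ 2 * (Real.log 2) ^ 2 / 4) ≤ Real.exp (H ^ 2 * Real.log k ^ 2 / 4) := by
        apply Real.exp_le_exp.2
        gcongr
      have e7 : d k / k ≤ 1 / k := by
        apply div_le_div_of_nonneg_right (hd k).2 hk'.le
      rw [Real.exp_neg]
      calc d k / k * (cL H * (Real.exp (Real.log k / 2) / Real.exp (H ^ 2 * Real.log k ^ 2 / 4)))
          ≤ 1 / k * (cL H * (k / Real.exp (H ^ 2 * (Real.log 2) ^ 2 / 4))) := by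
            gcongr
        _ = cL H * (Real.exp (H ^ 2 * Real.log 2 ^ 2 / 4))⁻¹ := by
            field_simp
  refine (Finset.sum_le_sum e2).trans ?_
  rw [Finset.sum_const, Nat.card_Icc, nsmul_eq_mul]
  simp

end Pool.Agent.Lib.MP_6bc78b_nt.LW.H95
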