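import Pool.Agent.Lib.MP_6bc78b_nt.LW.H95.LinAux

/-! Project LW, module W4 (LINL): the part with `ω` on the critical line. -/

set_option autoImplicit false

open Complex Filter Topology MeasureTheory ArithmeticFunction

namespace Pool.Agent.Lib.MP_6bc78b_nt.LW.H95

open Pool.Agent.Lib.MP_6bc78b_nt
open Pool.Agent.Lib.MP_6bc78b_nt.MS Pool.Agent.Lib.MP_6bc78b_nt.MS.P1
open Pool.Agent.Lib.MP_6bc78b_nt.MS.P5 Pool.Agent.Lib.MP_6bc78b_nt.MS.P5.HM
open Pool.Agent.Lib.MP_6bc78b_nt.LW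

lemma PD_half_conj (d : ArithmeticFunction ℝ) (X : ℕ) (y : ℝ) :
    PD d X (1 - (1 / 2 + y * I)) = (starRingEnd ℂ) (PD d X (1 / 2 + y * I)) := by
  rw [← PD_conj]
  congr 1
  simp only [map_add, map_mul, Complex.conj_ofReal, Complex.conj_I, map_div₀, map_one,
    map_ofNat]
  ring

lemma PD_half_norm (d : ArithmeticFunction ℝ) (X : ℕ) (y : ℝ) :
    ‖PD d X (1 - (1 / 2 + y * I))‖ = ‖PD d X (1 / 2 + y * I)‖ := by
  rw [PD_half_conj, RCLike.norm_conj]

/-- The `ω`-part on the critical line. -/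
lemma om_half (hG : GauLStatement) (hchi : ChiStatement) (C : ℝ) (hC0 : 0 < C)
    (hC : ∀ s : ℂ, 0 < s.re → s.re ≤ 2 → 1 ≤ s.im →
      ‖om s - (Real.log (s.im / (2 * Real.pi)) : ℂ)‖ ≤ C / s.im)
    (d : ArithmeticFunction ℝ) (X : ℕ) (t H Q R : ℝ) (hH : 0 < H) (ht : 2 ≤ t)
    (hint2 : Integrable (fun y : ℝ => ‖PD d X (1 / 2 + y * I)‖ ^ 2 * wl t H y))
    (hMV : (1 / (2 * Real.pi)) * ∫ y : ℝ, ‖PD d X (1 / 2 + y * I)‖ ^ 2 * wl t H y ≤ Q)
    (hsm : ‖VF (1 / 2) t (fun s => PD d X (1 - s) * WL t H s)‖ ≤ R) :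
    ‖VF (1 / 2) t (fun s => om s * PD d X (1 - s) * WL t H s)‖ ≤
      |Real.log (t / (2 * Real.pi))| * R + Q / 2 +
        cL H * ((8 * H ^ 2 + 8 * C ^ 2) / t ^ 2) := by
  have hline : Continuous (fun y : ℝ => (((1 / 2 : ℝ) : ℂ) + y * I : ℂ)) := by fun_prop
  have hWL : Continuous (WL t H) := by unfold WL; fun_prop
  have hBc : Continuous (fun y : ℝ => PD d X (1 - (((1 / 2 : ℝ) : ℂ) + y * I))) :=
    (PD_diff d X).continuous.comp (continuous_const.sub hline)
  have hWc : Continuous (fun y : ℝ => WL t H (((1 / 2 : ℝ) : ℂ) + y * I)) := hWL.comp hline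
  have hoc : ContinuousOn (fun y : ℝ => om (((1 / 2 : ℝ) : ℂ) + y * I))
      (Set.uIcc (t / 2) (2 * t)) := by
    intro y hy
    rw [Set.uIcc_of_le (by linarith)] at hy
    have h1 : DifferentiableAt ℂ om (((1 / 2 : ℝ) : ℂ) + y * I) :=
      H51.om_diff hchi _ (by simp) (by
        simp only [Complex.add_im, Complex.ofReal_im, Complex.mul_im, Complex.ofReal_re,
          Complex.I_im, Complex.I_re, mul_one, mul_zero, add_zero, zero_add]
        have := hy.1
        intro h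
        linarith)
    have h2 : ContinuousAt (fun y : ℝ => om (((1 / 2 : ℝ) : ℂ) + y * I)) y :=
      ContinuousAt.comp (f := fun y : ℝ => (((1 / 2 : ℝ) : ℂ) + y * I : ℂ)) (g := om)
        h1.continuousAt hline.continuousAt
    exact h2.continuousWithinAt
  set L : ℂ := (Real.log (t / (2 * Real.pi)) : ℂ) with hL
  set D : ℝ → ℂ := fun y => (om (((1 / 2 : ℝ) : ℂ) + y * I) - L) *
    (PD d X (1 - (((1 / 2 : ℝ) : ℂ) + y * I)) * WL t H (((1 / 2 : ℝ) : ℂ) + y * I)) with hD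
  have hDc : ContinuousOn D (Set.uIcc (t / 2) (2 * t)) :=
    (hoc.sub continuousOn_const).mul (hBc.mul hWc).continuousOn
  have e1 : VF (1 / 2) t (fun s => om s * PD d X (1 - s) * WL t H s) =
      L * VF (1 / 2) t (fun s => PD d X (1 - s) * WL t H s) +
        (1 / (2 * Real.pi) : ℂ) * ∫ y in (t / 2)..(2 * t), D y := by
    have e0 : ∫ y in (t / 2)..(2 * t), om (((1 / 2 : ℝ) : ℂ) + y * I) *
        PD d X (1 - (((1 / 2 : ℝ) : ℂ) + y * I)) * WL t H (((1 / 2 : ℝ) : ℂ) + y * I) =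
        L * (∫ y in (t / 2)..(2 * t), PD d X (1 - (((1 / 2 : ℝ) : ℂ) + y * I)) *
          WL t H (((1 / 2 : ℝ) : ℂ) + y * I)) + ∫ y in (t / 2)..(2 * t), D y := by
      rw [← intervalIntegral.integral_const_mul, ← intervalIntegral.integral_add]
      · apply intervalIntegral.integral_congr
        intro y _
        simp only [hD]
        ring
      · exact ((continuous_const.mul (hBc.mul hWc))).intervalIntegrable _ _
      · exact hDc.intervalIntegrable
    unfold VF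
    rw [e0]
    ring
  have hg : Integrable (fun y : ℝ => (1 / 2) * (‖PD d X (1 / 2 + y * I)‖ ^ 2 * wl t H y) +
      (1 / 2) * ((8 * H ^ 2 + 8 * C ^ 2) / t ^ 2 *
        Real.exp (-(1 / (2 * H ^ 2)) * (y - t) ^ 2))) :=
    (hint2.const_mul _).add (((wide_int t H hH).1.const_mul _).const_mul _)
  have hptw : ∀ y ∈ Set.Icc (t / 2) (2 * t), ‖D y‖ ≤
      (1 / 2) * (‖PD d X (1 / 2 + y * I)‖ ^ 2 * wl t H y) +
      (1 / 2) * ((8 * H ^ 2 + 8 * C ^ 2) / t ^ 2 *
        Real.exp (-(1 / (2 * H ^ 2)) * (y - t) ^ 2)) := by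
    intro y hy
    have h1 := om_dev C hC0 hC t y ht hy.1
    have h2 := dev_sq_le C t H y hH (by linarith)
    have h3 : ‖D y‖ = ‖om (1 / 2 + y * I) - L‖ * ‖PD d X (1 / 2 + y * I)‖ * wl t H y := by
      simp only [hD]
      rw [half_cast, norm_mul, norm_mul, PD_half_norm, hG.2.2.1, Complex.norm_real,
        Real.norm_eq_abs, abs_of_pos (wl_pos t H y)]
      ring
    rw [h3]
    set u := ‖om (1 / 2 + y * I) - L‖ with hu
    set v := ‖PD d X (1 / 2 + y * I)‖ with hv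
    set δ := (2 * |y - t| + 2 * C) / t with hδ
    have hu0 : 0 ≤ u := norm_nonneg _
    have hw := wl_pos t H y
    have h4 : u * v ≤ 1 / 2 * v ^ 2 + 1 / 2 * u ^ 2 := by nlinarith [sq_nonneg (u - v)]
    have h5 : u ^ 2 ≤ δ ^ 2 := by gcongr
    calc u * v * wl t H y ≤ (1 / 2 * v ^ 2 + 1 / 2 * u ^ 2) * wl t H y := by gcongr
      _ ≤ (1 / 2 * v ^ 2 + 1 / 2 * δ ^ 2) * wl t H y := by gcongr
      _ = 1 / 2 * (v ^ 2 * wl t H y) + 1 / 2 * (δ ^ 2 * wl t H y) := by ring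
      _ ≤ _ := by gcongr
  have hle : ‖∫ y in (t / 2)..(2 * t), D y‖ ≤
      ∫ y : ℝ, ((1 / 2) * (‖PD d X (1 / 2 + y * I)‖ ^ 2 * wl t H y) +
      (1 / 2) * ((8 * H ^ 2 + 8 * C ^ 2) / t ^ 2 *
        Real.exp (-(1 / (2 * H ^ 2)) * (y - t) ^ 2))) := by
    refine (intervalIntegral.norm_integral_le_integral_norm (by linarith)).trans ?_
    calc ∫ y in (t / 2)..(2 * t), ‖D y‖ ≤ ∫ y in (t / 2)..(2 * t),
          ((1 / 2) * (‖PD d X (1 / 2 + y * I)‖ ^ 2 * wl t H y) +
          (1 / 2) * ((8 * H ^ 2 + 8 * C ^ 2) / t ^ 2 *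
            Real.exp (-(1 / (2 * H ^ 2)) * (y - t) ^ 2))) := by
          apply intervalIntegral.integral_mono_on (by linarith) hDc.norm.intervalIntegrable
            hg.intervalIntegrable hptw
      _ ≤ _ := by
          rw [intervalIntegral.integral_of_le (by linarith)]
          apply setIntegral_le_integral hg
          refine Filter.Eventually.of_forall fun y => ?_
          have := wl_pos t H y
          show (0 : ℝ) ≤ _
          positivity
  rw [MeasureTheory.integral_add (hint2.const_mul _)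
    (((wide_int t H hH).1.const_mul _).const_mul _), MeasureTheory.integral_const_mul,
    MeasureTheory.integral_const_mul, MeasureTheory.integral_const_mul, (wide_int t H hH).2] at hle
  set J := ∫ y : ℝ, ‖PD d X (1 / 2 + y * I)‖ ^ 2 * wl t H y with hJ
  set E := (8 * H ^ 2 + 8 * C ^ 2) / t ^ 2 with hE
  have hE0 : 0 ≤ E := by positivity
  have hpi : 0 < 1 / (2 * Real.pi) := by positivity
  have e2 : ‖(1 / (2 * Real.pi) : ℂ)‖ = 1 / (2 * Real.pi) := by
    have : (1 / (2 * Real.pi) : ℂ) = ((1 / (2 * Real.pi) : ℝ) : ℂ) := by push_cast; rfl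
    rw [this, Complex.norm_real, Real.norm_eq_abs, abs_of_pos hpi]
  have e3 : ‖L‖ = |Real.log (t / (2 * Real.pi))| := by
    rw [hL, Complex.norm_real, Real.norm_eq_abs]
  have e4 : 1 / (2 * Real.pi) * (1 / 2 * (E * (Real.sqrt (2 * Real.pi) * H))) ≤ cL H * E := by
    have h1 := cL_ge H hH
    have h2 := sqrt_two_pi
    have h3 : 1 / (2 * Real.pi) ≤ 1 / (2 * 3) := by
      apply one_div_le_one_div_of_le (by norm_num)
      have := Real.pi_gt_three
      linarith
    calc 1 / (2 * Real.pi) * (1 / 2 * (E * (Real.sqrt (2 * Real.pi) * H)))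
        ≤ 1 / (2 * 3) * (1 / 2 * (E * (3 * H))) := by gcongr
      _ = H / 4 * E := by ring
      _ ≤ cL H * E := by gcongr
  rw [e1]
  refine (norm_add_le _ _).trans ?_
  rw [norm_mul, norm_mul, e2, e3]
  calc |Real.log (t / (2 * Real.pi))| * ‖VF (1 / 2) t (fun s => PD d X (1 - s) * WL t H s)‖ +
        1 / (2 * Real.pi) * ‖∫ y in (t / 2)..(2 * t), D y‖
      ≤ |Real.log (t / (2 * Real.pi))| * R + 1 / (2 * Real.pi) *
        (1 / 2 * J + 1 / 2 * (E * (Real.sqrt (2 * Real.pi) * H))) := by gcongr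
    _ = |Real.log (t / (2 * Real.pi))| * R + (1 / (2 * Real.pi) * J) / 2 +
        1 / (2 * Real.pi) * (1 / 2 * (E * (Real.sqrt (2 * Real.pi) * H))) := by ring
    _ ≤ |Real.log (t / (2 * Real.pi))| * R + Q / 2 + cL H * E := by
        gcongr

/-- The Gaussian beats every power. -/
lemma gauss_event (a0 K : ℝ) (ha0 : 0 < a0) : ∀ᶠ T : ℝ in atTop,
    T ^ K * Real.exp (-((T ^ a0) ^ 2 * (Real.log 2) ^ 2 / 4)) ≤ 1 := by
  have hlog : 0 < Real.log 2 := Real.log_pos (by norm_num)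
  have h := tendsto_rpow_mul_exp_neg_mul_atTop_nhds_zero (K / (2 * a0)) ((Real.log 2) ^ 2 / 4)
    (by positivity)
  have h2 : Tendsto (fun T : ℝ => T ^ (2 * a0)) atTop atTop :=
    tendsto_rpow_atTop (by positivity)
  have h3 := (h.comp h2).eventually (ge_mem_nhds (show (0 : ℝ) < 1 by norm_num))
  filter_upwards [h3, eventually_gt_atTop 0] with T hT hT0
  simp only [Function.comp] at hT
  rw [← Real.rpow_mul hT0.le, show 2 * a0 * (K / (2 * a0)) = K by field_simp] at hT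
  have e : (T ^ a0) ^ 2 = T ^ (2 * a0) := by
    rw [← Real.rpow_natCast, ← Real.rpow_mul hT0.le]
    congr 1
    push_cast
    ring
  rw [e]
  have e2 : -(T ^ (2 * a0) * Real.log 2 ^ 2 / 4) = -(Real.log 2 ^ 2 / 4) * T ^ (2 * a0) := by ring
  rw [e2]
  exact hT

end Pool.Agent.Lib.MP_6bc78b_nt.LW.H95
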