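import Pool.Agent.Lib.MP_6bc78b_nt.LW.Iface

/-! Project LW: simple zeros from the sum of `m(γ)^2`. -/

set_option autoImplicit false

open Complex Filter Topology MeasureTheory ArithmeticFunction

namespace Pool.Agent.Lib.MP_6bc78b_nt.LW.H95

open Pool.Agent.Lib.MP_6bc78b_nt
open Pool.Agent.Lib.MP_6bc78b_nt.MS Pool.Agent.Lib.MP_6bc78b_nt.MS.P1
open Pool.Agent.Lib.MP_6bc78b_nt.LW

/-- The zeros in a window. -/
def WS (t h : ℝ) : Set ℝ := {γ : ℝ | t < γ ∧ γ ≤ t + h ∧ hardyZ γ = 0}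

lemma WS_fin (hz : ZfacStatement) (t h : ℝ) (ht : 0 ≤ t) : (WS t h).Finite := by
  refine (hz.2.2.2.2.2.1 (t + h)).subset fun γ hγ => ?_
  exact ⟨lt_of_le_of_lt ht hγ.1, hγ.2.1, (hz.1 γ).1 hγ.2.2⟩

lemma NW_nonneg (t h : ℝ) : 0 ≤ NW t h := by
  unfold NW
  exact finsum_nonneg fun γ => finsum_nonneg fun _ => Nat.cast_nonneg _

/-- The simple zeros of a window. -/
theorem simple_ge (hz : ZfacStatement) (t h : ℝ) (ht : 0 ≤ t) :
    2 * NW t h - NW2 t h ≤ NWs t h := by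
  classical
  have hf := WS_fin hz t h ht
  have e1 : NW t h = ∑ γ ∈ hf.toFinset, (zeroMult γ : ℝ) :=
    finsum_mem_eq_finite_toFinset_sum _ hf
  have e2 : NW2 t h = ∑ γ ∈ hf.toFinset, (zeroMult γ : ℝ) ^ 2 :=
    finsum_mem_eq_finite_toFinset_sum _ hf
  have e3 : {γ : ℝ | t < γ ∧ γ ≤ t + h ∧ zeroMult γ = 1} =
      ((hf.toFinset.filter (fun γ => zeroMult γ = 1) : Finset ℝ) : Set ℝ) := by
    ext γ
    simp only [Set.mem_ofPred_eq, Finset.coe_filter, Set.Finite.mem_toFinset, WS]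
    constructor
    · rintro ⟨a, b, c⟩
      refine ⟨⟨a, b, ?_⟩, c⟩
      by_contra hne
      have := hz.2.2.2.1 γ hne
      omega
    · rintro ⟨⟨a, b, -⟩, c⟩
      exact ⟨a, b, c⟩
  have e4 : NWs t h = ∑ γ ∈ hf.toFinset, (if zeroMult γ = 1 then (1 : ℝ) else 0) := by
    unfold NWs
    rw [e3, Set.ncard_coe_finset, Finset.sum_ite, Finset.sum_const_zero, add_zero,
      Finset.sum_const, nsmul_eq_mul, mul_one]
  rw [e1, e2, e4, Finset.mul_sum, ← Finset.sum_sub_distrib]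
  refine Finset.sum_le_sum fun γ _ => ?_
  rcases Nat.lt_or_ge (zeroMult γ) 2 with h2 | h2
  · interval_cases h : zeroMult γ
    · norm_num
    · norm_num
  · rw [if_neg (by omega)]
    have : (2 : ℝ) ≤ (zeroMult γ : ℝ) := by exact_mod_cast h2
    nlinarith

end Pool.Agent.Lib.MP_6bc78b_nt.LW.H95
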