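import Pool.Agent.Lib.MP_6bc78b_nt.LW.H80.Wire
import Pool.Agent.Lib.MP_6bc78b_nt.LW.H12.Fin
import Pool.Agent.Lib.MP_6bc78b_nt.LW.H95.Simple

/-! Project LW: zeros in short windows, one statement. -/

set_option autoImplicit false

open Complex Filter Topology MeasureTheory ArithmeticFunction

namespace Pool.Agent.Lib.MP_6bc78b_nt.LW.H95

open Pool.Agent.Lib.MP_6bc78b_nt
open Pool.Agent.Lib.MP_6bc78b_nt.MS Pool.Agent.Lib.MP_6bc78b_nt.MS.P1
open Pool.Agent.Lib.MP_6bc78b_nt.LW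

lemma NWk_mono (hz : ZfacStatement) (k : ℕ) (c c' t h : ℝ) (ht : 0 ≤ t) (hc : c' ≤ c) :
    NWk k c t h ≤ NWk k c' t h := by
  classical
  have hf := WS_fin hz t h ht
  have e1 : ∀ c : ℝ, NWk k c t h = ∑ γ ∈ hf.toFinset,
      (zeroMult γ : ℝ) * max ((zeroMult γ : ℝ) - c) 0 ^ (2 * k) := fun c =>
    finsum_mem_eq_finite_toFinset_sum _ hf
  rw [e1, e1]
  refine Finset.sum_le_sum fun γ _ => ?_
  gcongr

lemma ratio_ge (x y : ℝ) (hx : 0 < x) (hxy : x ≤ y) (hy : y ≤ 1) :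
    1 / y + y / 3 ≤ 1 / x + x / 3 := by
  have hy0 : 0 < y := by linarith
  have h1 : 1 / x - 1 / y = (y - x) / (x * y) := by field_simp
  have h2 : y - x ≤ (y - x) / (x * y) := by
    rw [le_div_iff₀ (by positivity)]
    have h3 : x * y ≤ 1 := by nlinarith
    have h4 : 0 ≤ y - x := by linarith
    nlinarith
  linarith

/-- Zeros in short windows. -/
theorem short (hz : ZfacStatement) (hF : FinalStatement) (a lam ε : ℝ) (k : ℕ) (ha0 : 0 < a)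
    (ha1 : a < 1) (hε : 0 < ε) (hk : 1 ≤ k) (hlam : 0 < lam) (hkl : (k : ℝ) * lam < (1 + a) / 2) :
    ∃ δ T0 : ℝ, 0 < δ ∧ ∀ T : ℝ, T0 ≤ T → ∃ S : Set ℝ, MeasurableSet S ∧
      volume S ≤ ENNReal.ofReal (T ^ (1 - δ)) ∧ ((k : ℝ) * lam < a → S = ∅) ∧
      ∀ t : ℝ, T ≤ t → t ≤ 2 * T → t ∉ S →
        NW2 t (T ^ a) ≤ (1 / lam + lam / 3 + ε) * NW t (T ^ a) ∧
        (2 - 1 / lam - lam / 3 - ε) * NW t (T ^ a) ≤ NWs t (T ^ a) ∧
        NWk k (1 / lam + ε) t (T ^ a) ≤ ((k.factorial : ℝ) / 3 ^ k + ε) * NW t (T ^ a) := by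
  have hk1 : (1 : ℝ) ≤ k := by exact_mod_cast hk
  have hlk : lam ≤ k * lam := by nlinarith
  obtain ⟨f1, f2, f3, f4⟩ := hF a ε ha0 ha1 hε
  -- the three lines from the two estimates
  have key : ∀ (T t c1 c2 : ℝ), 0 ≤ t → c1 ≤ 1 / lam + lam / 3 → c2 ≤ 1 / lam →
      NW2 t (T ^ a) ≤ (c1 + ε) * NW t (T ^ a) →
      NWk k (c2 + ε) t (T ^ a) ≤ ((k.factorial : ℝ) / 3 ^ k + ε) * NW t (T ^ a) →
        NW2 t (T ^ a) ≤ (1 / lam + lam / 3 + ε) * NW t (T ^ a) ∧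
        (2 - 1 / lam - lam / 3 - ε) * NW t (T ^ a) ≤ NWs t (T ^ a) ∧
        NWk k (1 / lam + ε) t (T ^ a) ≤ ((k.factorial : ℝ) / 3 ^ k + ε) * NW t (T ^ a) := by
    intro T t c1 c2 ht h1 h2 h3 h4
    have hN := NW_nonneg t (T ^ a)
    have e1 : NW2 t (T ^ a) ≤ (1 / lam + lam / 3 + ε) * NW t (T ^ a) := h3.trans (by gcongr)
    refine ⟨e1, ?_, ?_⟩
    · have e2 := simple_ge hz t (T ^ a) ht
      have e3 : (2 - 1 / lam - lam / 3 - ε) * NW t (T ^ a) =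
          2 * NW t (T ^ a) - (1 / lam + lam / 3 + ε) * NW t (T ^ a) := by ring
      linarith
    · exact (NWk_mono hz k _ _ t (T ^ a) ht (by linarith)).trans h4
  by_cases hc : (k : ℝ) * lam < a
  · obtain ⟨T1, h1⟩ := f3
    obtain ⟨T2, h2⟩ := f4 k hk
    refine ⟨1, max (max T1 T2) 1, one_pos, fun T hT => ⟨∅, MeasurableSet.empty, by simp,
      fun _ => rfl, fun t ht1 ht2 _ => ?_⟩⟩
    simp only [max_le_iff] at hT
    obtain ⟨⟨hT1, hT2⟩, hT3⟩ := hT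
    refine key T t (1 / a + a / 3) (k / a) (by linarith)
      (ratio_ge lam a hlam (by linarith) ha1.le) ?_ (h1 T hT1 t ht1 ht2) (h2 T hT2 t ht1 ht2)
    rw [div_le_div_iff₀ ha0 hlam]
    linarith
  · obtain ⟨δ1, T1, hδ1, h1⟩ := f1
    obtain ⟨δ2, T2, hδ2, h2⟩ := f2 k hk
    set δ := min δ1 δ2 with hδ
    have hδ0 : 0 < δ := lt_min hδ1 hδ2
    have hev : ∀ᶠ T : ℝ in atTop, 2 ≤ T ^ (δ / 2) :=
      (tendsto_rpow_atTop (by linarith : 0 < δ / 2)).eventually (eventually_ge_atTop 2)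
    obtain ⟨T3, h3⟩ := Filter.eventually_atTop.1 hev
    refine ⟨δ / 2, max (max T1 T2) (max T3 1), by linarith, fun T hT => ?_⟩
    simp only [max_le_iff] at hT
    obtain ⟨⟨hT1, hT2⟩, hT3, hT4⟩ := hT
    have hT0 : 0 < T := by linarith
    obtain ⟨S1, m1, v1, w1⟩ := h1 T hT1
    obtain ⟨S2, m2, v2, w2⟩ := h2 T hT2
    refine ⟨S1 ∪ S2, m1.union m2, ?_, fun h => absurd h hc, fun t ht1 ht2 htS => ?_⟩
    · have e1 : T ^ (1 - δ1) ≤ T ^ (1 - δ) :=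
        Real.rpow_le_rpow_of_exponent_le hT4 (by linarith [min_le_left δ1 δ2])
      have e2 : T ^ (1 - δ2) ≤ T ^ (1 - δ) :=
        Real.rpow_le_rpow_of_exponent_le hT4 (by linarith [min_le_right δ1 δ2])
      have e3 : T ^ (1 - δ) + T ^ (1 - δ) ≤ T ^ (1 - δ / 2) := by
        have e4 : T ^ (1 - δ / 2) = T ^ (δ / 2) * T ^ (1 - δ) := by
          rw [← Real.rpow_add hT0]
          congr 1
          ring
        rw [e4]
        have e5 : 0 ≤ T ^ (1 - δ) := by positivity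
        have e6 := h3 T hT3
        nlinarith
      calc volume (S1 ∪ S2) ≤ volume S1 + volume S2 := measure_union_le _ _
        _ ≤ ENNReal.ofReal (T ^ (1 - δ1)) + ENNReal.ofReal (T ^ (1 - δ2)) := add_le_add v1 v2
        _ = ENNReal.ofReal (T ^ (1 - δ1) + T ^ (1 - δ2)) :=
            (ENNReal.ofReal_add (by positivity) (by positivity)).symm
        _ ≤ ENNReal.ofReal (T ^ (1 - δ / 2)) := by
            apply ENNReal.ofReal_le_ofReal
            linarith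
    · rw [Set.mem_union, not_or] at htS
      have e1 : 2 / (1 + a) + (1 + a) / 6 ≤ 1 / lam + lam / 3 := by
        have := ratio_ge lam ((1 + a) / 2) hlam (by linarith) (by linarith)
        have e2 : 1 / ((1 + a) / 2) = 2 / (1 + a) := by
          rw [one_div, inv_div]
        rw [e2] at this
        linarith
      refine key T t (2 / (1 + a) + (1 + a) / 6) (2 * k / (1 + a)) (by linarith) e1 ?_
        (w1 t ht1 ht2 htS.1) (w2 t ht1 ht2 htS.2)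
      rw [div_le_div_iff₀ (by linarith) hlam]
      linarith

/-- Zeros in short windows under the Riemann hypothesis. -/
theorem shortF (hRH : RiemannHypothesis) (a lam ε : ℝ) (k : ℕ) (ha0 : 0 < a)
    (ha1 : a < 1) (hε : 0 < ε) (hk : 1 ≤ k) (hlam : 0 < lam) (hkl : (k : ℝ) * lam < (1 + a) / 2) :
    ∃ δ T0 : ℝ, 0 < δ ∧ ∀ T : ℝ, T0 ≤ T → ∃ S : Set ℝ, MeasurableSet S ∧
      volume S ≤ ENNReal.ofReal (T ^ (1 - δ)) ∧ ((k : ℝ) * lam < a → S = ∅) ∧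
      ∀ t : ℝ, T ≤ t → t ≤ 2 * T → t ∉ S →
        NW2 t (T ^ a) ≤ (1 / lam + lam / 3 + ε) * NW t (T ^ a) ∧
        (2 - 1 / lam - lam / 3 - ε) * NW t (T ^ a) ≤ NWs t (T ^ a) ∧
        NWk k (1 / lam + ε) t (T ^ a) ≤ ((k.factorial : ℝ) / 3 ^ k + ε) * NW t (T ^ a) :=
  short P4.H30.zfac (H12.final P4.H30.zfac (H80.hwLF hRH) H80.shpF (H80.cnwF hRH) H80.excF
    H80.varLF H80.nb0F) a lam ε k ha0 ha1 hε hk hlam hkl

end Pool.Agent.Lib.MP_6bc78b_nt.LW.H95
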